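import Mathlib
import Pool.Agent.Helper64.FKBDefs
import Pool.Agent.Helper64.FKBProof

set_option autoImplicit false

namespace Pool.Agent.Helper33.Shelf.FKBTight

open Pool.Agent.Helper64.FKB

/-- **The running time bound of Algorithm B of Fredman and Khachiyan is tight.**
For every `m ≥ 1`, with `p = 2 ^ m` and `e = (m + 3) * 2 ^ (m + 1)`, there are mutually dual
irredundant monotone DNFs `F`, `G` with `|F| = e ^ p`, `|G| = p * 2 ^ e` and
`|F| + |G| ≤ 2 ^ (e + m + 1)` such that Algorithm B (with the threshold function `χ v ^ χ v = v`)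
has a run on `(F, G)`, and every run, whatever the choices of the branching variables, makes at
least `2 ^ ((e - 1) * p)` recursive calls. -/
theorem result (m p e : ℕ) (hm : 1 ≤ m) (hp : p = 2 ^ m) (he : e = (m + 3) * 2 ^ (m + 1)) :
    ∃ F G : Finset (Finset (Fin p × Fin e × Bool)),
      IsDualPair F G ∧ F.card = e ^ p ∧ G.card = p * 2 ^ e ∧ F.card + G.card ≤ 2 ^ (e + m + 1) ∧
      ∀ χ : ℝ → ℝ, (∀ v : ℝ, 1 ≤ v → 1 ≤ χ v ∧ χ v ^ χ v = v) →
        (∃ k, Run χ F G k) ∧ ∀ k, Run χ F G k → 2 ^ ((e - 1) * p) ≤ k :=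
  Pool.Agent.Helper64.FKB.main m p e hm hp he

end Pool.Agent.Helper33.Shelf.FKBTight
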