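import Mathlib
import Pool.Agent.Helper81.VCP.Main

set_option autoImplicit false

namespace Pool.Agent.Results.MP_bca398_lc.PolyVC

/-- **Dualization in output-polynomial time for hypergraphs of bounded VC-dimension.**
There are one Turing machine and a constant `c` such that for every hypergraph `E` on `n` vertices
(a list of subsets of `Fin n`) the machine, started with the code of `E`, writes every minimal
transversal of `E` exactly once and halts after at most `(input length + output length + 2) ^ (c * (1 + v))`
steps, where `v` is the smaller one of the VC-dimensions of `E` and of the family `L` of its minimal
transversals. The machine is not told `v`. -/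
theorem result :
    ∃ tm : Turing.FinTM2, ∃ eIn : tm.Γ tm.k₀ ≃ Option Bool, ∃ eOut : tm.Γ tm.k₁ ≃ Option Bool,
      ∃ c : ℕ,
        ∀ n : ℕ, ∀ E : List (Finset (Fin n)),
          ∃ L : List (Finset (Fin n)),
            L.Nodup ∧
            (∀ T : Finset (Fin n),
              T ∈ L ↔ Minimal (fun S : Finset (Fin n) => ∀ e ∈ E, (S ∩ e).Nonempty) T) ∧
            Nonempty (Turing.EvalsToInTime tm.step
              (Turing.initList tm
                (List.map (fun b : Option Bool => eIn.symm b)
                  (List.replicate n (some true) ++ [none] ++
                    (E.map (fun T : Finset (Fin n) =>
                      List.ofFn (fun i : Fin n => some (decide (i ∈ T))) ++ [none])).flatten)))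
              (some (Turing.haltList tm
                (List.map (fun b : Option Bool => eOut.symm b)
                  (L.map (fun T : Finset (Fin n) =>
                    List.ofFn (fun i : Fin n => some (decide (i ∈ T))) ++ [none])).flatten)))
              (((List.replicate n (some true) ++ [none] ++
                  (E.map (fun T : Finset (Fin n) =>
                    List.ofFn (fun i : Fin n => some (decide (i ∈ T))) ++ [none])).flatten).length +
                 (L.map (fun T : Finset (Fin n) =>
                    List.ofFn (fun i : Fin n => some (decide (i ∈ T))) ++ [none])).flatten.length + 2) ^
                (c * (1 + min E.toFinset.vcDim L.toFinset.vcDim)))) :=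
  Pool.Agent.Helper81.VCP.main

end Pool.Agent.Results.MP_bca398_lc.PolyVC
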